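import Pool.Agent.Q43.RP.Stm2
import Pool.Agent.H977R3.CM.Aut

set_option autoImplicit false

namespace Pool.Agent.Q251.RP

open Pool.Agent.Q43.RP

/-- a finite Galois extension through which the complex embeddings factor -/
theorem exists_L (E : Type) [Field E] [NumberField E] :
    ∃ (L : IntermediateField ℚ (AlgebraicClosure ℚ)) (_ : NumberField L) (_ : IsGalois ℚ L)
      (j : L →+* ℂ), ∀ ψ : E →+* ℂ, ∃ φ : E →+* L, j.comp φ = ψ := by
  classical
  have _ : Algebra.IsAlgebraic ℚ (AlgebraicClosure ℚ) := AlgebraicClosure.isAlgebraic ℚ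
  have _ : IsAlgClosure ℚ (AlgebraicClosure ℚ) := ⟨inferInstance, inferInstance⟩
  have _ : Normal ℚ (AlgebraicClosure ℚ) := IsAlgClosure.normal ℚ (AlgebraicClosure ℚ)
  let j0 : (AlgebraicClosure ℚ) →ₐ[ℚ] ℂ := IsAlgClosed.lift
  let L : IntermediateField ℚ (AlgebraicClosure ℚ) := IntermediateField.normalClosure ℚ E (AlgebraicClosure ℚ)
  have _ : Normal ℚ L := normalClosure.normal ℚ E (AlgebraicClosure ℚ)
  have hNF : NumberField L := NumberField.mk
  refine ⟨L, hNF, ⟨⟩, (j0 : (AlgebraicClosure ℚ) →+* ℂ).comp (algebraMap L (AlgebraicClosure ℚ)), fun ψ => ?_⟩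
  have hinj : Function.Injective (fun φ : E →+* (AlgebraicClosure ℚ) => (j0 : (AlgebraicClosure ℚ) →+* ℂ).comp φ) := by
    intro a b h
    ext x
    exact (j0 : (AlgebraicClosure ℚ) →+* ℂ).injective (RingHom.congr_fun h x)
  have hcard : Fintype.card (E →+* (AlgebraicClosure ℚ)) = Fintype.card (E →+* ℂ) := by
    rw [NumberField.Embeddings.card, NumberField.Embeddings.card]
  have hbij := (Fintype.bijective_iff_injective_and_card _).2 ⟨hinj, hcard⟩
  obtain ⟨φ, hφ⟩ := hbij.2 ψ
  have hmem : ∀ x, φ x ∈ L := by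
    intro x
    have h1 : (φ.toRatAlgHom).fieldRange ≤ L := (φ.toRatAlgHom).fieldRange_le_normalClosure
    exact h1 ⟨x, rfl⟩
  refine ⟨φ.codRestrict L hmem, ?_⟩
  rw [← hφ]
  ext x
  rfl

/-- two embeddings in a Galois extension are conjugate -/
theorem exists_conj {E L : Type*} [Field E] [Field L] [NumberField E] [NumberField L] [IsGalois ℚ L]
    (a b : E →+* L) : ∃ g : L ≃ₐ[ℚ] L, ∀ x, b x = g (a x) := by
  let _ : Algebra E L := a.toAlgebra
  have _ : IsScalarTower ℚ E L := IsScalarTower.of_algebraMap_eq fun x => by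
    rw [eq_ratCast, eq_ratCast]
    exact (map_ratCast a x).symm
  let χ : E →ₐ[ℚ] L := b.toRatAlgHom
  refine ⟨AlgEquiv.ofBijective (χ.liftNormal L) (AlgHom.normal_bijective ℚ L L _), fun x => ?_⟩
  exact (χ.liftNormal_commutes L x).symm

theorem r2 : S_R2 := by
  intro E _ _ r hr hinv
  classical
  -- the subfield
  let F : IntermediateField ℚ E :=
    { carrier := {x | ∀ φ ψ : E →+* ℂ, r φ ψ → φ x = ψ x}
      mul_mem' := fun {a b} ha hb φ ψ h => by rw [map_mul, map_mul, ha φ ψ h, hb φ ψ h]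
      one_mem' := fun φ ψ _ => by rw [map_one, map_one]
      add_mem' := fun {a b} ha hb φ ψ h => by rw [map_add, map_add, ha φ ψ h, hb φ ψ h]
      zero_mem' := fun φ ψ _ => by rw [map_zero, map_zero]
      algebraMap_mem' := fun q φ ψ _ => by
        rw [eq_ratCast, map_ratCast, map_ratCast]
      inv_mem' := fun a ha φ ψ h => by rw [map_inv₀, map_inv₀, ha φ ψ h] }
  have hF : ∀ x, x ∈ F ↔ ∀ φ ψ : E →+* ℂ, r φ ψ → φ x = ψ x := fun x => Iff.rfl
  have key : ∀ φ ψ : E →+* ℂ, r φ ψ ↔ ∀ x ∈ F, φ x = ψ x := by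
    intro φ ψ
    refine ⟨fun h x hx => hx φ ψ h, fun h => ?_⟩
    obtain ⟨L, hL1, hL2, j, hj⟩ := exists_L E
    obtain ⟨φ0, hφ0⟩ := hj φ
    have hj1 : ∀ θ : E →+* ℂ, ∃ g : L ≃ₐ[ℚ] L, ∀ x, θ x = j (g (φ0 x)) := by
      intro θ
      obtain ⟨θ', hθ'⟩ := hj θ
      obtain ⟨g, hg⟩ := exists_conj φ0 θ'
      refine ⟨g, fun x => ?_⟩
      rw [← hg, ← hθ']; rfl
    -- the embedding attached to g
    let e : (L ≃ₐ[ℚ] L) → (E →+* ℂ) := fun g => j.comp ((g : L →+* L).comp φ0)
    have he : ∀ (g : L ≃ₐ[ℚ] L) (x : E), e g x = j (g (φ0 x)) := fun g x => rfl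
    have hmove : ∀ g a b : L ≃ₐ[ℚ] L, r (e a) (e b) → r (e (g * a)) (e (g * b)) := by
      intro g a b hab
      obtain ⟨σ, hσ⟩ := Pool.Agent.H977R3.CM.exists_aut j (g : L ≃+* L)
      have h1 := hinv σ _ _ hab
      have h2 : ∀ c : L ≃ₐ[ℚ] L, (σ : ℂ →+* ℂ).comp (e c) = e (g * c) := by
        intro c
        ext x
        show σ (j (c (φ0 x))) = j (g (c (φ0 x)))
        exact hσ _
      rwa [h2, h2] at h1
    let H : Subgroup (L ≃ₐ[ℚ] L) :=
      { carrier := {g | r (e 1) (e g)}
        mul_mem' := fun {a b} ha hb => by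
          have h1 := hmove a 1 b hb
          rw [mul_one] at h1
          exact hr.trans ha h1
        one_mem' := hr.refl _
        inv_mem' := fun {a} ha => by
          have h1 := hmove a⁻¹ 1 a ha
          rw [mul_one, inv_mul_cancel] at h1
          exact hr.symm h1 }
    have hH : ∀ g, g ∈ H ↔ r (e 1) (e g) := fun g => Iff.rfl
    have hrel : ∀ a b : L ≃ₐ[ℚ] L, r (e a) (e b) ↔ a⁻¹ * b ∈ H := by
      intro a b
      rw [hH]
      constructor
      · intro hab
        have := hmove a⁻¹ a b hab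
        rwa [inv_mul_cancel] at this
      · intro hab
        have := hmove a 1 (a⁻¹ * b) hab
        rwa [mul_one, mul_inv_cancel_left] at this
    have heq : ∀ θ : E →+* ℂ, ∃ g : L ≃ₐ[ℚ] L, θ = e g := by
      intro θ
      obtain ⟨g, hg⟩ := hj1 θ
      exact ⟨g, RingHom.ext hg⟩
    -- the fixed field
    have hK : ∀ k : L, (∀ g ∈ H, g k = k) → ∃ x : E, φ0 x = k ∧ x ∈ F := by
      intro k hk
      have h1 : ∃ x : E, φ0 x = k := by
        let R : IntermediateField ℚ L := (φ0.toRatAlgHom).fieldRange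
        have hR : ∀ g ∈ R.fixingSubgroup, g k = k := by
          intro g hg
          apply hk
          rw [hH]
          have : e g = e 1 := by
            ext x
            rw [he, he]
            congr 1
            have := (IntermediateField.mem_fixingSubgroup_iff R g).1 hg (φ0 x) ⟨x, rfl⟩
            rw [this]; rfl
          rw [this]
          exact hr.refl _
        have h2 : k ∈ IntermediateField.fixedField R.fixingSubgroup := by
          rw [IntermediateField.mem_fixedField_iff]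
          exact hR
        rw [IsGalois.fixedField_fixingSubgroup] at h2
        obtain ⟨x, hx⟩ := h2
        exact ⟨x, hx⟩
      obtain ⟨x, hx⟩ := h1
      refine ⟨x, hx, ?_⟩
      rw [hF]
      intro α β hαβ
      obtain ⟨a, rfl⟩ := heq α
      obtain ⟨b, rfl⟩ := heq β
      rw [hrel] at hαβ
      have h2 := hk _ hαβ
      rw [he, he, hx]
      congr 1
      have h3 : a ((a⁻¹ * b) k) = a k := by rw [h2]
      have h4 : a ((a⁻¹ * b) k) = b k := by
        rw [← AlgEquiv.mul_apply, mul_inv_cancel_left]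
      rw [← h3, h4]
    obtain ⟨a, rfl⟩ := heq φ
    obtain ⟨b, rfl⟩ := heq ψ
    rw [hrel]
    have hfix : a⁻¹ * b ∈ (IntermediateField.fixedField H).fixingSubgroup := by
      rw [IntermediateField.mem_fixingSubgroup_iff]
      intro k hk
      rw [IntermediateField.mem_fixedField_iff] at hk
      obtain ⟨x, hx, hxF⟩ := hK k hk
      have h1 := h x hxF
      rw [he, he, hx] at h1
      have h2 := j.injective h1
      rw [AlgEquiv.mul_apply, ← h2, ← AlgEquiv.mul_apply, inv_mul_cancel]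
      rfl
    rwa [IntermediateField.fixingSubgroup_fixedField] at hfix
  refine ⟨F, key, fun φ => ?_⟩
  let _ : Algebra F ℂ := (φ.comp (algebraMap F E)).toAlgebra
  have hset : {ψ : E →+* ℂ | r φ ψ} = {ψ : E →+* ℂ | ∀ x ∈ F, φ x = ψ x} := by
    ext ψ; exact key φ ψ
  rw [hset]
  let Φ : (E →ₐ[F] ℂ) ≃ {ψ : E →+* ℂ | ∀ x ∈ F, φ x = ψ x} :=
    { toFun := fun f => ⟨(f : E →+* ℂ), fun x hx => (f.commutes ⟨x, hx⟩).symm⟩
      invFun := fun ψ => { ψ.1 with commutes' := fun x => (ψ.2 x.1 x.2).symm }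
      left_inv := fun f => by ext x; rfl
      right_inv := fun ψ => by ext x; rfl }
  rw [← Nat.card_coe_set_eq, ← Nat.card_congr Φ, Nat.card_eq_fintype_card]
  exact AlgHom.card F E ℂ

end Pool.Agent.Q251.RP
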